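import Pool.Agent.H32.S36.Targets

set_option autoImplicit false

open Complex Polynomial

namespace Pool.Agent.H32.S36

noncomputable section

theorem m_LIO (h1 : T_RED) (h2 : T_HLL) : T_LIO := by
  intro F f hF hL hlow τ₁ hτ₁
  by_contra hne
  have hM : 0 < ‖F τ₁‖ := norm_pos_iff.2 hne
  have h0 : f.coeff 0 = 0 := hlow 0 le_rfl
  obtain ⟨Y, hY⟩ := h2 F f 0 hL (fun n hn => hlow n hn.le) ‖F τ₁‖ hM
  have hY' : ∀ τ : ℂ, 0 < τ.im → Y ≤ τ.im → ‖F τ‖ < ‖F τ₁‖ := by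
    intro τ hτ hy
    have := hY τ hτ hy
    simpa [h0] using this
  have hU : IsOpen {τ : ℂ | 0 < τ.im} := isOpen_lt continuous_const Complex.continuous_im
  have hconv : Convex ℝ {τ : ℂ | 0 < τ.im} := convex_halfSpace_im_gt 0
  have hd : DifferentiableOn ℂ F {τ : ℂ | 0 < τ.im} := fun τ hτ =>
    (hF.hol τ hτ).differentiableWithinAt
  have red := h1 (fun τ => ‖F τ‖) (fun τ hτ => by rw [hF.per τ hτ])
    (fun τ hτ => by rw [hF.w10 τ hτ]; simp) (fun τ hτ => by rw [hF.w5 τ hτ]; simp)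
  set K : Set ℂ := Set.Icc (-(1 / 2)) (1 / 2) ×ℂ Set.Icc (1 / 12) (max Y 1) with hK
  have hKc : IsCompact K := isCompact_Icc.reProdIm isCompact_Icc
  have hKU : K ⊆ {τ : ℂ | 0 < τ.im} := by
    intro τ hτ
    have h3 := (Complex.mem_reProdIm.1 hτ).2.1
    exact lt_of_lt_of_le (by norm_num) h3
  have hcont : ContinuousOn (fun τ => ‖F τ‖) K := (hd.continuousOn.mono hKU).norm
  obtain ⟨t1, ht1a, ht1b, ht1c, ht1d⟩ := red τ₁ hτ₁
  have ht1d' : ‖F t1‖ = ‖F τ₁‖ := ht1d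
  have ht1pos : 0 < t1.im := lt_of_lt_of_le (by norm_num) ht1a
  have ht1K : t1 ∈ K := by
    refine Complex.mem_reProdIm.2 ⟨⟨ht1b, ht1c⟩, ht1a, ?_⟩
    by_contra hc
    push Not at hc
    have h3 := hY' t1 ht1pos ((le_max_left _ _).trans hc.le)
    linarith
  obtain ⟨t2, ht2K, ht2⟩ := hKc.exists_isMaxOn ⟨t1, ht1K⟩ hcont
  have ht2U : 0 < t2.im := hKU ht2K
  have hM2 : ‖F τ₁‖ ≤ ‖F t2‖ := by
    rw [← ht1d']
    exact ht2 ht1K
  have hmax : IsMaxOn (norm ∘ F) {τ : ℂ | 0 < τ.im} t2 := by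
    intro τ hτ
    simp only [Set.mem_ofPred_eq, Function.comp_apply]
    obtain ⟨t3, ht3a, ht3b, ht3c, ht3d⟩ := red τ hτ
    have ht3d' : ‖F t3‖ = ‖F τ‖ := ht3d
    have ht3pos : 0 < t3.im := lt_of_lt_of_le (by norm_num) ht3a
    rw [← ht3d']
    by_cases hc : t3.im ≤ max Y 1
    · exact ht2 (Complex.mem_reProdIm.2 ⟨⟨ht3b, ht3c⟩, ht3a, hc⟩ : t3 ∈ K)
    · push Not at hc
      exact ((hY' t3 ht3pos ((le_max_left _ _).trans hc.le)).le).trans hM2
  have heq := Complex.eqOn_of_isPreconnected_of_isMaxOn_norm hconv.isPreconnected hU hd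
    (c := t2) ht2U hmax
  have hmem : ((max Y 1 : ℝ) : ℂ) * Complex.I ∈ {τ : ℂ | 0 < τ.im} := by
    have : (0 : ℝ) < max Y 1 := lt_of_lt_of_le one_pos (le_max_right _ _)
    simpa using this
  have h4 := heq hmem
  have h5 := hY' _ hmem (by simp)
  rw [h4] at h5
  simp only [Function.const_apply] at h5
  linarith

end

end Pool.Agent.H32.S36
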