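import Pool.Agent.H32.S36.Targets

set_option autoImplicit false

open Complex Polynomial

namespace Pool.Agent.H32.S36

noncomputable section

theorem QUO_qq_add_one (τ : ℂ) : qq (τ + 1) = qq τ := by
  unfold qq
  rw [mul_add, mul_one, Complex.exp_add, Complex.exp_two_pi_mul_I, mul_one]

theorem QUO_qq_ne (τ : ℂ) : qq τ ≠ 0 := Complex.exp_ne_zero _

theorem QUO_norm_qq (τ : ℂ) : ‖qq τ‖ = Real.exp (-(2 * Real.pi * τ.im)) := by
  unfold qq
  rw [Complex.norm_exp]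
  congr 1
  simp

theorem QUO_norm_qq_le (τ : ℂ) (h : 0 < τ.im) : ‖qq τ‖ ≤ 1 := by
  rw [QUO_norm_qq]
  apply Real.exp_le_one_iff.2
  have := Real.pi_pos
  nlinarith [mul_pos this h]

theorem QUO_per (F : ℂ → ℂ) (f : LaurentSeries ℂ) (h : HL F f) (τ : ℂ) (hτ : 0 < τ.im) :
    F (τ + 1) = F τ := by
  have h1 := h (τ + 1) (by simpa using hτ)
  have h2 := h τ hτ
  rw [QUO_qq_add_one] at h1
  exact h1.unique h2

theorem QUO_lower (f : LaurentSeries ℂ) : ∃ k : ℤ, ∀ n : ℤ, n < k → f.coeff n = 0 :=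
  ⟨f.order, fun _ hn => HahnSeries.coeff_eq_zero_of_lt_order hn⟩

theorem m_QUO (h1 : T_HLX) (h2 : T_HLL) (h3 : T_HLM) (h4 : T_HLU) : T_QUO := by
  intro F G H f g g' k hF hG hgg hgk hglow hH hHG
  have hgk0 : 0 < ‖g.coeff k‖ := norm_pos_iff.2 hgk
  obtain ⟨Y1, hY1⟩ := h2 G g k hG hglow (‖g.coeff k‖ / 2) (by positivity)
  have hGlow : ∀ τ : ℂ, 0 < τ.im → Y1 ≤ τ.im → ‖g.coeff k‖ / 2 ≤ ‖qq τ ^ (-k) * G τ‖ := by
    intro τ hτ hy
    have h := hY1 τ hτ hy
    have h' := norm_sub_norm_le (g.coeff k) (qq τ ^ (-k) * G τ)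
    rw [norm_sub_rev] at h
    linarith
  have hGne : ∀ τ : ℂ, 0 < τ.im → Y1 ≤ τ.im → G τ ≠ 0 := by
    intro τ hτ hy h0
    have := hGlow τ hτ hy
    rw [h0, mul_zero, norm_zero] at this
    linarith
  -- periodicity of H
  have hHper : ∀ τ : ℂ, 0 < τ.im → H (τ + 1) = H τ := by
    have hU : IsOpen {τ : ℂ | 0 < τ.im} := isOpen_lt continuous_const Complex.continuous_im
    have hconv : Convex ℝ {τ : ℂ | 0 < τ.im} := convex_halfSpace_im_gt 0
    have hd : DifferentiableOn ℂ (fun τ => H (τ + 1) - H τ) {τ : ℂ | 0 < τ.im} := by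
      intro τ hτ
      have e1 : DifferentiableAt ℂ (fun τ : ℂ => H (τ + 1)) τ := by
        have : DifferentiableAt ℂ H (τ + 1) := hH _ (by simpa using hτ)
        exact this.comp (f := fun τ : ℂ => τ + 1) τ (by fun_prop)
      exact (e1.sub (hH τ hτ)).differentiableWithinAt
    have han := hd.analyticOnNhd hU
    set y0 : ℝ := max Y1 0 + 1 with hy0
    have hy0pos : 0 < y0 := by
      have := le_max_right Y1 0
      linarith
    have hy0Y : Y1 < y0 := by
      have := le_max_left Y1 0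
      linarith
    have hmem : ((y0 : ℂ) * Complex.I) ∈ {τ : ℂ | 0 < τ.im} := by
      simpa using hy0pos
    have hev : (fun τ => H (τ + 1) - H τ) =ᶠ[nhds ((y0 : ℂ) * Complex.I)] 0 := by
      have hopen : IsOpen {τ : ℂ | max Y1 0 < τ.im} :=
        isOpen_lt continuous_const Complex.continuous_im
      have hin : ((y0 : ℂ) * Complex.I) ∈ {τ : ℂ | max Y1 0 < τ.im} := by
        have : max Y1 0 < y0 := by rw [hy0]; linarith
        simpa using this
      filter_upwards [hopen.mem_nhds hin] with τ hτ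
      have hτ' : max Y1 0 < τ.im := hτ
      have hτ0 : 0 < τ.im := lt_of_le_of_lt (le_max_right _ _) hτ'
      have hτY : Y1 ≤ τ.im := (lt_of_le_of_lt (le_max_left _ _) hτ').le
      have e1 := hHG τ hτ0
      have e2 := hHG (τ + 1) (by simpa using hτ0)
      rw [QUO_per F f hF τ hτ0, QUO_per G g hG τ hτ0, ← e1] at e2
      have := mul_right_cancel₀ (hGne τ hτ0 hτY) e2
      simp [this]
    have := han.eqOn_zero_of_preconnected_of_eventuallyEq_zero hconv.isPreconnected hmem hev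
    intro τ hτ
    have h0 := this hτ
    simpa [sub_eq_zero] using h0
  -- growth
  obtain ⟨k', hk'⟩ := QUO_lower f
  obtain ⟨Y2, hY2⟩ := h2 F f k' hF hk' 1 one_pos
  have hbound : ∃ (N : ℕ) (C Y : ℝ), ∀ τ : ℂ, 0 < τ.im → Y ≤ τ.im → ‖qq τ ^ N * H τ‖ ≤ C := by
    refine ⟨(k - k').toNat, (‖f.coeff k'‖ + 1) / (‖g.coeff k‖ / 2), max Y1 Y2, ?_⟩
    intro τ hτ hy
    have hy1 : Y1 ≤ τ.im := (le_max_left _ _).trans hy
    have hy2 : Y2 ≤ τ.im := (le_max_right _ _).trans hy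
    have hFb : ‖qq τ ^ (-k') * F τ‖ ≤ ‖f.coeff k'‖ + 1 := by
      have h := hY2 τ hτ hy2
      have h' := norm_sub_norm_le (qq τ ^ (-k') * F τ) (f.coeff k')
      linarith
    have hGb := hGlow τ hτ hy1
    rw [le_div_iff₀ (by positivity)]
    have hN : 0 ≤ ((k - k').toNat : ℤ) - k + k' := by
      have := Int.self_le_toNat (k - k')
      omega
    have e : (qq τ ^ (k - k').toNat * H τ) * (qq τ ^ (-k) * G τ) =
        qq τ ^ (((k - k').toNat : ℤ) - k + k') * (qq τ ^ (-k') * F τ) := by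
      rw [← hHG τ hτ, ← zpow_natCast (qq τ) (k - k').toNat]
      have e3 : (((k - k').toNat : ℤ) - k + k') + (-k') = ((k - k').toNat : ℤ) + (-k) := by ring
      calc qq τ ^ (((k - k').toNat : ℤ)) * H τ * (qq τ ^ (-k) * G τ)
          = (qq τ ^ (((k - k').toNat : ℤ)) * qq τ ^ (-k)) * (H τ * G τ) := by ring
        _ = qq τ ^ (((k - k').toNat : ℤ) + (-k)) * (H τ * G τ) := by
            rw [zpow_add₀ (QUO_qq_ne τ)]
        _ = (qq τ ^ (((k - k').toNat : ℤ) - k + k') * qq τ ^ (-k')) * (H τ * G τ) := by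
            rw [← e3, zpow_add₀ (QUO_qq_ne τ)]
        _ = _ := by ring
    have hq1 : ‖qq τ ^ (((k - k').toNat : ℤ) - k + k')‖ ≤ 1 := by
      obtain ⟨m, hm⟩ := Int.eq_ofNat_of_zero_le hN
      rw [hm, zpow_natCast, norm_pow]
      exact pow_le_one₀ (norm_nonneg _) (QUO_norm_qq_le τ hτ)
    calc ‖qq τ ^ (k - k').toNat * H τ‖ * (‖g.coeff k‖ / 2)
        ≤ ‖qq τ ^ (k - k').toNat * H τ‖ * ‖qq τ ^ (-k) * G τ‖ :=
          mul_le_mul_of_nonneg_left hGb (norm_nonneg _)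
      _ = ‖qq τ ^ (((k - k').toNat : ℤ) - k + k')‖ * ‖qq τ ^ (-k') * F τ‖ := by
          rw [← norm_mul, e, norm_mul]
      _ ≤ 1 * (‖f.coeff k'‖ + 1) :=
          mul_le_mul hq1 hFb (norm_nonneg _) zero_le_one
      _ = ‖f.coeff k'‖ + 1 := one_mul _
  obtain ⟨s, hs⟩ := h1 H hH hHper hbound
  have hprod := h3 H G s g hs hG
  have hFs : HL F (s * g) := hprod.congr fun τ hτ => hHG τ hτ
  have hEq : s * g = f := h4 F (s * g) f hFs hF
  have : s = f * g' := by
    rw [← hEq, mul_assoc, hgg, mul_one]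
  rw [← this]
  exact hs

end

end Pool.Agent.H32.S36
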